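import Pool.Agent.H143Z.Acc.Defs

set_option autoImplicit false

namespace Pool.Agent.H336Z.Acc

open Pool.Agent.H143Z.Vir Pool.Agent.H143Z.Acc

section loc

variable {S : Type} [CommRing S] [Algebra ℂ S]

lemma exists_loc {M : Type} [AddCommGroup M] [Module ℂ M] (ξ : S →ₐ[ℂ] Module.End ℂ M) (z : S)
    (hz : Function.Injective (ξ z)) :
    ∃ (M' : Type) (_ : AddCommGroup M') (_ : Module ℂ M') (ξ' : S →ₐ[ℂ] Module.End ℂ M')
      (φ : M →ₗ[ℂ] M'), Function.Injective φ ∧ (∀ r m, φ (ξ r m) = ξ' r (φ m)) ∧ IsUnit (ξ' z) ∧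
      ∀ n : M', ∃ (k : ℕ) (m : M), ξ' (z ^ k) n = φ m := by
  letI : Module S M := Module.compHom M (ξ : S →+* Module.End ℂ M)
  have hsm : ∀ (r : S) (m : M), r • m = ξ r m := fun _ _ => rfl
  let N := LocalizedModule (Submonoid.powers z) M
  letI : Module ℂ N := Module.compHom N (algebraMap ℂ S)
  have hc : ∀ (c : ℂ) (n : N), c • n = algebraMap ℂ S c • n := fun _ _ => rfl
  haveI : IsScalarTower ℂ S N := ⟨fun c r n => by rw [hc, smul_smul, Algebra.smul_def]⟩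
  haveI : SMulCommClass S ℂ N := ⟨fun r c n => by rw [hc, hc, smul_smul, smul_smul, mul_comm]⟩
  let f : M →ₗ[S] N := LocalizedModule.mkLinearMap (Submonoid.powers z) M
  let φ : M →ₗ[ℂ] N :=
    { toFun := f
      map_add' := f.map_add
      map_smul' := fun c m => by
        rw [RingHom.id_apply, hc, ← f.map_smul, hsm, AlgHom.commutes]
        rfl }
  refine ⟨N, inferInstance, inferInstance, Algebra.lsmul ℂ ℂ N, φ, ?_, ?_, ?_, ?_⟩
  · rw [injective_iff_map_eq_zero]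
    intro m hm
    obtain ⟨⟨_, k, rfl⟩, hk⟩ := (IsLocalizedModule.eq_zero_iff (Submonoid.powers z) f).1 hm
    have h1 : ξ (z ^ k) m = 0 := hk
    rw [map_pow] at h1
    have h2 : Function.Injective (ξ z ^ k) := by
      rw [Module.End.coe_pow]
      exact hz.iterate k
    exact (injective_iff_map_eq_zero _).1 h2 m h1
  · intro r m
    exact f.map_smul r m
  · have h := IsLocalizedModule.map_units f (⟨z, Submonoid.mem_powers z⟩ : Submonoid.powers z)
    rw [Module.End.isUnit_iff] at h ⊢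
    exact h
  · intro n
    obtain ⟨⟨m, ⟨_, k, rfl⟩⟩, hk⟩ := IsLocalizedModule.surj (Submonoid.powers z) f n
    exact ⟨k, m, hk⟩

variable {M M' : Type} [AddCommGroup M] [Module ℂ M] [AddCommGroup M'] [Module ℂ M']
  {ξ : S →ₐ[ℂ] Module.End ℂ M} {ξ' : S →ₐ[ℂ] Module.End ℂ M'} {φ : M →ₗ[ℂ] M'} {z : S}

lemma xi_mul (r s : S) (n : M') : ξ' (r * s) n = ξ' r (ξ' s n) := by
  rw [map_mul, Module.End.mul_apply]

lemma xi_comm (r s : S) (n : M') : ξ' r (ξ' s n) = ξ' s (ξ' r n) := by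
  rw [← xi_mul, ← xi_mul, mul_comm]

lemma inj_pow (hu : IsUnit (ξ' z)) (k : ℕ) : Function.Injective (ξ' (z ^ k)) := by
  rw [map_pow]
  exact ((Module.End.isUnit_iff _).1 (hu.pow k)).1

lemma eq_zero_of (hu : IsUnit (ξ' z)) (hs : ∀ n : M', ∃ (k : ℕ) (m : M), ξ' (z ^ k) n = φ m)
    (E : Module.End ℂ M') (h1 : ∀ m, E (φ m) = 0) (h2 : E * ξ' z = ξ' z * E) : E = 0 := by
  ext n
  obtain ⟨k, m, hk⟩ := hs n
  apply inj_pow hu k
  have h3 : E * ξ' (z ^ k) = ξ' (z ^ k) * E := by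
    rw [map_pow]
    exact (Commute.pow_right h2 k).eq
  rw [← Module.End.mul_apply, ← h3, Module.End.mul_apply, hk, h1, LinearMap.zero_apply, map_zero]

lemma exists_ext (hφ : Function.Injective φ) (hξ : ∀ r m, φ (ξ r m) = ξ' r (φ m))
    (hu : IsUnit (ξ' z)) (hs : ∀ n : M', ∃ (k : ℕ) (m : M), ξ' (z ^ k) n = φ m)
    (T : Module.End ℂ M) (D : S → S) (hD : ∀ a b, D (a * b) = D a * b + a * D b)
    (hT : ∀ r, T * ξ r = ξ r * T + ξ (D r)) :
    ∃ T' : Module.End ℂ M', (∀ m, φ (T m) = T' (φ m)) ∧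
      ∀ r, T' * ξ' r = ξ' r * T' + ξ' (D r) := by
  have hT' : ∀ r m, φ (T (ξ r m)) = ξ' r (φ (T m)) + ξ' (D r) (φ m) := by
    intro r m
    rw [← Module.End.mul_apply, hT, LinearMap.add_apply, Module.End.mul_apply, map_add, hξ, hξ]
  let P : ℕ → M' → M' → Prop := fun k n v =>
    ∃ m, ξ' (z ^ k) n = φ m ∧ ξ' (z ^ k) v = φ (T m) - ξ' (D (z ^ k)) n
  have up : ∀ k j n v, P k n v → P (k + j) n v := by
    rintro k j n v ⟨m, h1, h2⟩
    refine ⟨ξ (z ^ j) m, ?_, ?_⟩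
    · rw [hξ, ← h1, ← xi_mul, ← pow_add, add_comm]
    · rw [hT', pow_add, hD, map_add, LinearMap.add_apply, mul_comm (z ^ k) (z ^ j), xi_mul, h2,
        map_sub, ← h1, xi_mul, xi_mul, xi_comm (D (z ^ k)), xi_comm (z ^ k) (D (z ^ j))]
      abel
  have uniq : ∀ k j n v v', P k n v → P j n v' → v = v' := by
    intro k j n v v' h h'
    obtain ⟨m, h1, h2⟩ := up k j n v h
    have h'' := up j k n v' h'
    rw [add_comm] at h''
    obtain ⟨m', h1', h2'⟩ := h''
    have : m = m' := hφ (h1.symm.trans h1')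
    subst this
    exact inj_pow hu _ (h2.trans h2'.symm)
  have ex : ∀ n, ∃ v k, P k n v := by
    intro n
    obtain ⟨k, m, hk⟩ := hs n
    have hsurj : Function.Surjective (ξ' (z ^ k)) := by
      rw [map_pow]
      exact ((Module.End.isUnit_iff _).1 (hu.pow k)).2
    obtain ⟨v, hv⟩ := hsurj (φ (T m) - ξ' (D (z ^ k)) n)
    exact ⟨v, k, m, hk, hv⟩
  choose F kk hF using ex
  have hadd : ∀ n n', F (n + n') = F n + F n' := by
    intro n n'
    obtain ⟨m, h1, h2⟩ := up _ (kk n') _ _ (hF n)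
    have h' := up _ (kk n) _ _ (hF n')
    rw [add_comm] at h'
    obtain ⟨m', h1', h2'⟩ := h'
    refine uniq _ (kk n + kk n') _ _ _ (hF _) ⟨m + m', ?_, ?_⟩
    · rw [map_add, h1, h1', map_add]
    · rw [map_add, h2, h2', map_add, map_add, map_add]
      abel
  have hsmul : ∀ (c : ℂ) n, F (c • n) = c • F n := by
    intro c n
    obtain ⟨m, h1, h2⟩ := hF n
    refine uniq _ (kk n) _ _ _ (hF _) ⟨c • m, ?_, ?_⟩
    · rw [map_smul, h1, map_smul]
    · rw [map_smul, h2, map_smul, map_smul, map_smul, smul_sub]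
  have hD1 : D 1 = 0 := by
    have := hD 1 1
    rw [mul_one, mul_one, one_mul] at this
    exact left_eq_add.1 this
  refine ⟨⟨⟨F, hadd⟩, hsmul⟩, fun m => ?_, fun r => ?_⟩
  · refine uniq 0 _ (φ m) _ _ ⟨m, ?_, ?_⟩ (hF _)
    · simp
    · simp [hD1]
  · ext n
    obtain ⟨m, h1, h2⟩ := hF n
    refine uniq _ (kk n) (ξ' r n) _ _ (hF _) ⟨ξ r m, ?_, ?_⟩
    · rw [xi_comm, h1, hξ]
    · change ξ' (z ^ kk n) (ξ' r (F n) + ξ' (D r) n) = _
      rw [map_add, xi_comm, h2, hT', map_sub, xi_comm (z ^ kk n), h1, xi_comm r]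
      abel

end loc

lemma Dx_mul (A : Finset ℕ) (k : ℤ) (a b : R) : Dx A k (a * b) = Dx A k a * b + a * Dx A k b := by
  unfold Dx
  rw [Finset.sum_mul, Finset.mul_sum, ← Finset.sum_add_distrib]
  refine Finset.sum_congr rfl fun i _ => ?_
  rw [der_mul]
  ring

lemma comm1 {B : Type} [Ring B] {p y Z W : B} (h1 : p * Z = Z * p + W) (h2 : y * Z = Z * y)
    (h3 : y * W = W * y) : Commute (p * y - y * p) Z := by
  change (p * y - y * p) * Z = Z * (p * y - y * p)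
  have a1 : p * y * Z = Z * (p * y) + W * y := by
    rw [mul_assoc, h2, ← mul_assoc, h1, add_mul, mul_assoc]
  have a2 : y * p * Z = Z * (y * p) + W * y := by
    rw [mul_assoc, h1, mul_add, ← mul_assoc, h2, h3, mul_assoc]
  rw [sub_mul, a1, a2, mul_sub]
  abel

lemma comm2 {B : Type} [Ring B] [Algebra ℂ B] (c : ℂ) {p q r Z W1 W2 W3 W12 W21 : B}
    (h1 : p * Z = Z * p + W1) (h2 : q * Z = Z * q + W2) (h3 : r * Z = Z * r + W3)
    (h12 : p * W2 = W2 * p + W12) (h21 : q * W1 = W1 * q + W21) :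
    (p * q - q * p - c • r) * Z = Z * (p * q - q * p - c • r) + (W12 - W21 - c • W3) := by
  have a1 : p * q * Z = Z * (p * q) + W1 * q + W2 * p + W12 := by
    rw [mul_assoc, h2, mul_add, ← mul_assoc, h1, h12, add_mul, mul_assoc]
    abel
  have a2 : q * p * Z = Z * (q * p) + W2 * p + W1 * q + W21 := by
    rw [mul_assoc, h1, mul_add, ← mul_assoc, h2, h21, add_mul, mul_assoc]
    abel
  rw [sub_mul, sub_mul, a1, a2, smul_mul_assoc, h3, mul_sub, mul_sub, mul_smul_comm, smul_add]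
  abel

theorem t6 : Pool.Agent.H143Z.Acc.T6 := by
  intro O A z ax hz
  obtain ⟨M', _, _, ξ', φ, hφ, hξ, hu, hs⟩ := exists_loc O.ξ z hz
  have ext0 : ∀ T : Module.End ℂ O.M, (∀ r, T * O.ξ r = O.ξ r * T) →
      ∃ T' : Module.End ℂ M', (∀ m, φ (T m) = T' (φ m)) ∧ ∀ r, T' * ξ' r = ξ' r * T' := by
    intro T hT
    obtain ⟨T', h1, h2⟩ := exists_ext hφ hξ hu hs T (fun _ => 0) (by simp) (by simpa using hT)
    exact ⟨T', h1, by simpa using h2⟩
  choose y' hy1 hy2 using fun a => ext0 (O.y a) (ax.yξ a)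
  obtain ⟨d', hd1, hd2⟩ := ext0 O.dg ax.dξ
  choose ρ' hρ1 hρ2 using fun k =>
    exists_ext hφ hξ hu hs (O.ρ k) (Dx A k) (Dx_mul A k) (ax.ρξ k)
  have hcomm : ∀ r s, ξ' r * ξ' s = ξ' s * ξ' r := fun r s => by
    rw [← map_mul, ← map_mul, mul_comm]
  have zero : ∀ r, O.ξ r = 0 → ξ' r = 0 := by
    intro r hr
    refine eq_zero_of hu hs _ (fun m => ?_) (hcomm r z)
    rw [← hξ, hr, LinearMap.zero_apply, map_zero]
  have tr : ∀ (E : Module.End ℂ O.M) (E' : Module.End ℂ M'), E = 0 → (∀ m, φ (E m) = E' (φ m)) →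
      E' * ξ' z = ξ' z * E' → E' = 0 := by
    intro E E' h0 h1 h2
    refine eq_zero_of hu hs _ (fun m => ?_) h2
    rw [← h1, h0, LinearMap.zero_apply, map_zero]
  refine ⟨⟨M', ξ', y', ρ', d'⟩, φ, ?_, hφ, ⟨?_, ?_, hy2, hρ2, ?_, ?_, hd2, ?_, ?_⟩, hu, hs⟩
  · intro s m
    cases s with
    | xi r => exact hξ r m
    | y a => exact hy1 a m
    | rho k => exact hρ1 k m
    | dg => exact hd1 m
  · intro r
    have := zero (kl A r - r) (by rw [map_sub, ax.supp, sub_self])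
    rw [map_sub, sub_eq_zero] at this
    exact this
  · intro a b
    change y' a * y' b = y' b * y' a
    rw [← sub_eq_zero]
    refine tr _ _ (sub_eq_zero.2 (ax.yy a b)) (fun m => ?_) ?_
    · simp only [LinearMap.sub_apply, Module.End.mul_apply, map_sub, hy1]
    · exact ((Commute.mul_left (hy2 a z) (hy2 b z)).sub_left
        (Commute.mul_left (hy2 b z) (hy2 a z))).eq
  · intro k a
    change ρ' k * y' a = y' a * ρ' k + ((a - k : ℤ) : ℂ) • y' (a + k)
    rw [← sub_eq_zero, ← sub_sub]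
    refine tr _ _ ((sub_sub _ _ _).trans (sub_eq_zero.2 (ax.ρy k a))) (fun m => ?_) ?_
    · simp only [LinearMap.sub_apply, Module.End.mul_apply, map_sub, hy1, hρ1,
        LinearMap.smul_apply, map_smul]
    · exact ((comm1 (hρ2 k z) (hy2 a z) (hy2 a _)).sub_left
        (Commute.smul_left (hy2 (a + k) z) _)).eq
  · intro k m
    change ρ' k * ρ' m = ρ' m * ρ' k + ((m - k : ℤ) : ℂ) • ρ' (m + k)
    rw [← sub_eq_zero, ← sub_sub]
    have h0 : O.ρ k * O.ρ m - O.ρ m * O.ρ k - ((m - k : ℤ) : ℂ) • O.ρ (m + k) = 0 := by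
      rw [sub_sub]; exact sub_eq_zero.2 (ax.ρρ k m)
    refine tr _ _ h0 (fun m => ?_) ?_
    · simp only [LinearMap.sub_apply, Module.End.mul_apply, map_sub, hρ1,
        LinearMap.smul_apply, map_smul]
    · have h1 := comm2 ((m - k : ℤ) : ℂ) (ax.ρξ k z) (ax.ρξ m z) (ax.ρξ (m + k) z) (ax.ρξ k _)
        (ax.ρξ m _)
      rw [h0, zero_mul, mul_zero, zero_add, ← map_smul, ← map_sub, ← map_sub] at h1
      have h2 := zero _ h1.symm
      rw [map_sub, map_sub, map_smul] at h2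
      rw [comm2 ((m - k : ℤ) : ℂ) (hρ2 k z) (hρ2 m z) (hρ2 (m + k) z) (hρ2 k _) (hρ2 m _), h2,
        add_zero]
  · intro k
    change d' * ρ' k = ρ' k * d'
    rw [eq_comm, ← sub_eq_zero]
    refine tr _ _ (sub_eq_zero.2 (ax.dρ k).symm) (fun m => ?_) ?_
    · simp only [LinearMap.sub_apply, Module.End.mul_apply, map_sub, hd1, hρ1]
    · exact (comm1 (hρ2 k z) (hd2 z) (hd2 _)).eq
  · intro a
    change d' * y' a = y' a * d' + y' a
    rw [← sub_eq_zero, ← sub_sub]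
    refine tr _ _ ((sub_sub _ _ _).trans (sub_eq_zero.2 (ax.dy a))) (fun m => ?_) ?_
    · simp only [LinearMap.sub_apply, Module.End.mul_apply, map_sub, hd1, hy1]
    · exact (((Commute.mul_left (hd2 z) (hy2 a z)).sub_left
        (Commute.mul_left (hy2 a z) (hd2 z))).sub_left (hy2 a z)).eq

end Pool.Agent.H336Z.Acc
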